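import Pool.Agent.Helper77.SND.Stmts

/-!
Module FORCE1: one step of the forcing theorem.
-/

set_option autoImplicit false

namespace Pool.Agent.Helper77.SND

/-- `Good` depends only on the values on edges -/
theorem force1_congr {m : ℕ} {V : Type} {H : SimpleGraph (Fin m)} {G : SimpleGraph V}
    {c c' : Sym2 V → Bool} (h : ∀ x y, G.Adj x y → c s(x, y) = c' s(x, y))
    (hc : Good H G c) : Good H G c' := by
  intro b f hf
  obtain ⟨x, y, hxy, hne⟩ := hc b f hf
  refine ⟨x, y, hxy, ?_⟩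
  rw [← h _ _ (hf.2 x y hxy)]
  exact hne

/-- the complement of a good colouring is good -/
theorem force1_not {m : ℕ} {V : Type} {H : SimpleGraph (Fin m)} {G : SimpleGraph V}
    {c : Sym2 V → Bool} (hc : Good H G c) : Good H G (fun e => !c e) := by
  intro b f hf
  obtain ⟨x, y, hxy, hne⟩ := hc (!b) f hf
  refine ⟨x, y, hxy, ?_⟩
  intro h
  apply hne
  rw [← h]
  simp

theorem st_FORCE1 (h1 : ST_GL4) : ST_FORCE1 := by
  intro m H h3 hS V _ G u v u0 v0 s huv hu0v0 h11 h12 h21 h22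
  obtain ⟨W, hW, S, a, b, p, q, φ, hab, hpq, ha, hb, hp, hq, hlip, ⟨d, hd⟩, hsnd⟩ :=
    hS (m + 2) s
  obtain ⟨V', hV', G', i, j, hi, hj, hja, hjb, hjp, hjq, hadj, hgood, hglue⟩ :=
    h1 m H h3 V W G S u v u0 v0 a b p q φ huv hu0v0 h11 h12 h21 h22 hab hpq ha hb hp hq hlip
  refine ⟨V', hV', G', i, hi, hadj, ?_, ?_⟩
  · intro c hc hsign
    have key : ∀ d : Sym2 W → Bool, Good H S d → d s(a, b) = c s(u, v) →
        ∃ e : Sym2 V' → Bool, Good H G' e ∧ ∀ x y, G.Adj x y → e s(i x, i y) = c s(x, y) := by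
      intro d hd hdc
      have h4 := hsnd d hd
      have h5 : d s(p, q) = c s(u0, v0) := by
        rw [hdc] at h4
        cases h6 : d s(p, q) <;> cases h7 : c s(u0, v0) <;> cases h8 : c s(u, v) <;>
          cases s <;> simp_all
      obtain ⟨e, he1, he2⟩ := hglue c d hdc h5
      refine ⟨e, (hgood e).2 ⟨force1_congr (fun x y hxy => ?_) hc,
        force1_congr (fun x y hxy => ?_) hd⟩, he1⟩
      · simpa [pb] using (he1 x y hxy).symm
      · simpa [pb] using (he2 x y hxy).symm
    by_cases hdc : d s(a, b) = c s(u, v)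
    · exact key d hd hdc
    · refine key (fun e => !d e) (force1_not hd) ?_
      cases h6 : d s(a, b) <;> cases h7 : c s(u, v) <;> simp_all
  · intro e he
    obtain ⟨h4, h5⟩ := (hgood e).1 he
    refine ⟨h4, ?_⟩
    have h6 := hsnd _ h5
    simp only [pb, Sym2.map_mk] at h6
    rw [hja, hjb, hjp, hjq] at h6
    exact h6

end Pool.Agent.Helper77.SND
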